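import Mathlib

/-!
# `GL.3` and `Grz.3` lack the Lyndon positivity property

`GL.3` is the logic of the finite strict linear orders, `Grz.3` is the logic of the finite
reflexive linear orders.  For each of the two we give a formula which is monotone in a variable
`p` but is not equivalent to any `p`-positive formula.
-/

namespace H313LP

/-- Modal formulas built from literals and the constants. `lit i true` is the variable `i`,
`lit i false` is its negation. -/
inductive Fm : Type
  | lit (i : ℕ) (s : Bool)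
  | bot
  | top
  | and (a b : Fm)
  | or (a b : Fm)
  | dia (a : Fm)
  | box (a : Fm)

namespace Fm

/-- The negation of a formula, by the duality laws. -/
def neg : Fm → Fm
  | lit i s => lit i (!s)
  | bot => top
  | top => bot
  | and a b => or a.neg b.neg
  | or a b => and a.neg b.neg
  | dia a => box a.neg
  | box a => dia a.neg

/-- Implication. -/
def imp (a b : Fm) : Fm := or a.neg b

/-- Equivalence. -/
def iff (a b : Fm) : Fm := and (a.imp b) (b.imp a)

/-- The variables of a formula. -/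
def vars : Fm → Finset ℕ
  | lit i _ => {i}
  | bot => ∅
  | top => ∅
  | and a b => a.vars ∪ b.vars
  | or a b => a.vars ∪ b.vars
  | dia a => a.vars
  | box a => a.vars

/-- The formula contains no negative literal of a variable from `P`. -/
def PositiveIn (P : Finset ℕ) : Fm → Prop
  | lit i s => s = false → i ∉ P
  | bot => True
  | top => True
  | and a b => a.PositiveIn P ∧ b.PositiveIn P
  | or a b => a.PositiveIn P ∧ b.PositiveIn P
  | dia a => a.PositiveIn P
  | box a => a.PositiveIn P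

/-- Truth of a formula at a point of a Kripke model. -/
def Sat {W : Type} (R : W → W → Prop) (V : ℕ → W → Prop) : Fm → W → Prop
  | lit i s, x => if s = true then V i x else ¬ V i x
  | bot, _ => False
  | top, _ => True
  | and a b, x => a.Sat R V x ∧ b.Sat R V x
  | or a b, x => a.Sat R V x ∨ b.Sat R V x
  | dia a, x => ∃ y, R x y ∧ a.Sat R V y
  | box a, x => ∀ y, R x y → a.Sat R V y

/-- The value of a formula in a Boolean algebra with an operator `f` for the diamond. -/
def val {A : Type} [BooleanAlgebra A] (f : A → A) (θ : ℕ → A) : Fm → A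
  | lit i s => if s = true then θ i else (θ i)ᶜ
  | bot => ⊥
  | top => ⊤
  | and a b => a.val f θ ⊓ b.val f θ
  | or a b => a.val f θ ⊔ b.val f θ
  | dia a => f (a.val f θ)
  | box a => (f (a.val f θ)ᶜ)ᶜ

end Fm

/-- `f` makes the Boolean algebra a modal algebra. -/
def IsModal {A : Type} [BooleanAlgebra A] (f : A → A) : Prop :=
  f ⊥ = ⊥ ∧ ∀ a b, f (a ⊔ b) = f a ⊔ f b

/-- The modal algebra validates the set `L` of formulas. -/
def Validates {A : Type} [BooleanAlgebra A] (f : A → A) (L : Set Fm) : Prop :=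
  ∀ χ ∈ L, ∀ θ : ℕ → A, χ.val f θ = ⊤

/-- `φ` is monotone in the variables of `P`, in the logic `L`. -/
def MonotoneIn (L : Set Fm) (P : Finset ℕ) (φ : Fm) : Prop :=
  ∀ (A : Type) [BooleanAlgebra A] (f : A → A), IsModal f → Validates f L →
    ∀ θ₁ θ₂ : ℕ → A, (∀ i, i ∉ P → θ₁ i = θ₂ i) → (∀ i ∈ P, θ₁ i ≤ θ₂ i) →
      φ.val f θ₁ ≤ φ.val f θ₂

/-- The Lyndon positivity property. -/
def LPP (L : Set Fm) : Prop :=
  ∀ P Q : Finset ℕ, Disjoint P Q → ∀ φ : Fm, φ.vars ⊆ P ∪ Q → MonotoneIn L P φ →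
    ∃ α : Fm, α.vars ⊆ P ∪ Q ∧ α.PositiveIn P ∧ φ.iff α ∈ L

/-- `GL.3`, the logic of all finite strict linear orders. -/
def GL3 : Set Fm :=
  {φ | ∀ (W : Type) [Fintype W] [LinearOrder W] (V : ℕ → W → Prop) (x : W),
    φ.Sat (fun y z => y < z) V x}

/-- `Grz.3`, the logic of all finite reflexive linear orders. -/
def Grz3 : Set Fm :=
  {φ | ∀ (W : Type) [Fintype W] [LinearOrder W] (V : ℕ → W → Prop) (x : W),
    φ.Sat (fun y z => y ≤ z) V x}

/-! ### General lemmas -/

lemma sat_neg {W : Type} (R : W → W → Prop) (V : ℕ → W → Prop) (φ : Fm) (x : W) :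
    φ.neg.Sat R V x ↔ ¬ φ.Sat R V x := by
  induction φ generalizing x with
  | lit i s => cases s <;> simp [Fm.neg, Fm.Sat]
  | bot => simp [Fm.neg, Fm.Sat]
  | top => simp [Fm.neg, Fm.Sat]
  | and a b ha hb => simp only [Fm.neg, Fm.Sat, ha, hb]; tauto
  | or a b ha hb => simp only [Fm.neg, Fm.Sat, ha, hb]; tauto
  | dia a ha => simp only [Fm.neg, Fm.Sat, ha]; push Not; rfl
  | box a ha => simp only [Fm.neg, Fm.Sat, ha]; push Not; rfl

lemma sat_iff {W : Type} (R : W → W → Prop) (V : ℕ → W → Prop) (φ ψ : Fm) (x : W) :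
    (φ.iff ψ).Sat R V x ↔ (φ.Sat R V x ↔ ψ.Sat R V x) := by
  simp only [Fm.iff, Fm.imp, Fm.Sat, sat_neg]
  tauto

lemma val_neg {A : Type} [BooleanAlgebra A] (f : A → A) (θ : ℕ → A) (φ : Fm) :
    φ.neg.val f θ = (φ.val f θ)ᶜ := by
  induction φ with
  | lit i s => cases s <;> simp [Fm.neg, Fm.val]
  | bot => simp [Fm.neg, Fm.val]
  | top => simp [Fm.neg, Fm.val]
  | and a b ha hb => simp [Fm.neg, Fm.val, ha, hb]
  | or a b ha hb => simp [Fm.neg, Fm.val, ha, hb]
  | dia a ha => simp [Fm.neg, Fm.val, ha]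
  | box a ha => simp [Fm.neg, Fm.val, ha]

/-- Replace the variable `0` by the disjunction of the variables `0` and `2`. -/
def sub : Fm → Fm
  | .lit 0 true => .or (.lit 0 true) (.lit 2 true)
  | .lit 0 false => .and (.lit 0 false) (.lit 2 false)
  | .lit (i + 1) s => .lit (i + 1) s
  | .bot => .bot
  | .top => .top
  | .and a b => .and (sub a) (sub b)
  | .or a b => .or (sub a) (sub b)
  | .dia a => .dia (sub a)
  | .box a => .box (sub a)

lemma val_sub {A : Type} [BooleanAlgebra A] (f : A → A) (θ θ' : ℕ → A) (φ : Fm)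
    (hv : 2 ∉ φ.vars) (h0 : θ' 0 = θ 0 ⊔ θ 2) (h : ∀ i, i ≠ 0 → i ≠ 2 → θ' i = θ i) :
    (sub φ).val f θ = φ.val f θ' := by
  induction φ with
  | lit i s =>
    have h2 : i ≠ 2 := by
      rintro rfl
      exact hv (by simp [Fm.vars])
    match i, s with
    | 0, true => simp [sub, Fm.val, h0]
    | 0, false => simp [sub, Fm.val, h0]
    | (i + 1), s =>
      have := h (i + 1) (by omega) h2
      cases s <;> simp [sub, Fm.val, this]
  | bot => simp [sub, Fm.val]
  | top => simp [sub, Fm.val]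
  | and a b ha hb =>
    simp only [Fm.vars, Finset.mem_union, not_or] at hv
    simp [sub, Fm.val, ha hv.1, hb hv.2]
  | or a b ha hb =>
    simp only [Fm.vars, Finset.mem_union, not_or] at hv
    simp [sub, Fm.val, ha hv.1, hb hv.2]
  | dia a ha => simp only [Fm.vars] at hv; simp [sub, Fm.val, ha hv]
  | box a ha => simp only [Fm.vars] at hv; simp [sub, Fm.val, ha hv]

lemma sat_sub {W : Type} (R : W → W → Prop) (V V' : ℕ → W → Prop) (φ : Fm) (hv : 2 ∉ φ.vars)
    (h0 : ∀ x, V' 0 x ↔ (V 0 x ∨ V 2 x)) (h : ∀ i, i ≠ 0 → i ≠ 2 → V' i = V i) (x : W) :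
    (sub φ).Sat R V x ↔ φ.Sat R V' x := by
  induction φ generalizing x with
  | lit i s =>
    have h2 : i ≠ 2 := by
      rintro rfl
      exact hv (by simp [Fm.vars])
    match i, s with
    | 0, true => simp [sub, Fm.Sat, h0]
    | 0, false => simp [sub, Fm.Sat, h0]
    | (i + 1), s =>
      have := h (i + 1) (by omega) h2
      cases s <;> simp [sub, Fm.Sat, this]
  | bot => simp [sub, Fm.Sat]
  | top => simp [sub, Fm.Sat]
  | and a b ha hb =>
    simp only [Fm.vars, Finset.mem_union, not_or] at hv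
    simp [sub, Fm.Sat, ha hv.1, hb hv.2]
  | or a b ha hb =>
    simp only [Fm.vars, Finset.mem_union, not_or] at hv
    simp [sub, Fm.Sat, ha hv.1, hb hv.2]
  | dia a ha => simp only [Fm.vars] at hv; simp [sub, Fm.Sat, ha hv]
  | box a ha => simp only [Fm.vars] at hv; simp [sub, Fm.Sat, ha hv]

/-- To see that a formula is monotone in the variable `0` it suffices to look at the models. -/
lemma monotone_of_sat {L : Set Fm} {φ : Fm} (hv : 2 ∉ φ.vars)
    (h : (φ.imp (sub φ)) ∈ L) : MonotoneIn L {0} φ := by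
  intro A _ f _ hval θ₁ θ₂ hne hle
  classical
  let θ : ℕ → A := fun i => if i = 2 then θ₂ 0 else θ₁ i
  have h1 := hval _ h θ
  rw [Fm.imp, Fm.val, val_neg] at h1
  have h2 : (sub φ).val f θ = φ.val f (fun i => if i = 2 then θ₁ 2 else θ₂ i) := by
    refine val_sub f θ _ φ hv ?_ ?_
    · simp only [θ]
      have := hle 0 (by simp)
      simp [this]
    · intro i hi0 hi2
      simp only [θ, hi2, if_false]
      exact (hne i (by simpa using hi0)).symm
  have h3 : φ.val f θ = φ.val f θ₁ := by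
    have : ∀ ψ : Fm, 2 ∉ ψ.vars → ψ.val f θ = ψ.val f θ₁ := by
      intro ψ hψ
      induction ψ with
      | lit i s =>
        have h2 : i ≠ 2 := by
          rintro rfl
          exact hψ (by simp [Fm.vars])
        simp [Fm.val, θ, h2]
      | bot => rfl
      | top => rfl
      | and a b ha hb =>
        simp only [Fm.vars, Finset.mem_union, not_or] at hψ
        simp only [Fm.val, ha hψ.1, hb hψ.2]
      | or a b ha hb =>
        simp only [Fm.vars, Finset.mem_union, not_or] at hψ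
        simp only [Fm.val, ha hψ.1, hb hψ.2]
      | dia a ha => simp only [Fm.vars] at hψ; simp only [Fm.val, ha hψ]
      | box a ha => simp only [Fm.vars] at hψ; simp only [Fm.val, ha hψ]
    exact this φ hv
  have h4 : φ.val f (fun i => if i = 2 then θ₁ 2 else θ₂ i) = φ.val f θ₂ := by
    congr 1
    funext i
    by_cases hi : i = 2
    · subst hi
      simp only [if_true]
      exact hne 2 (by simp)
    · simp [hi]
  rw [h2, h3, h4] at h1
  have h5 : Codisjoint (φ.val f θ₁)ᶜ (φ.val f θ₂) := codisjoint_iff.2 h1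
  exact le_of_compl_le_compl_helper h5
where
  le_of_compl_le_compl_helper {A : Type} [BooleanAlgebra A] {a b : A}
      (h : Codisjoint aᶜ b) : a ≤ b := by
    have h1 : aᶜ ⊔ b = ⊤ := codisjoint_iff.1 h
    calc a = a ⊓ (aᶜ ⊔ b) := by rw [h1, inf_top_eq]
      _ = a ⊓ b := by rw [inf_sup_left, inf_compl_eq_bot, bot_sup_eq]
      _ ≤ b := inf_le_right

/-- Modal depth. -/
def dep : Fm → ℕ
  | .lit _ _ => 0
  | .bot => 0
  | .top => 0
  | .and a b => max (dep a) (dep b)
  | .or a b => max (dep a) (dep b)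
  | .dia a => dep a + 1
  | .box a => dep a + 1

/-- Positive formulas are preserved under graded simulations. -/
lemma sim_sat {W : Type} {R : W → W → Prop} {V V' : ℕ → W → Prop} {P : Finset ℕ}
    (S : ℕ → W → W → Prop)
    (hpos : ∀ k x y, S k x y → ∀ i ∈ P, V i x → V' i y)
    (heq : ∀ k x y, S k x y → ∀ i, i ∉ P → (V i x ↔ V' i y))
    (hforth : ∀ k x y, S (k + 1) x y → ∀ x', R x x' → ∃ y', R y y' ∧ S k x' y')
    (hback : ∀ k x y, S (k + 1) x y → ∀ y', R y y' → ∃ x', R x x' ∧ S k x' y')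
    (α : Fm) (hα : α.PositiveIn P) : ∀ k x y, dep α ≤ k → S k x y →
      α.Sat R V x → α.Sat R V' y := by
  induction α with
  | lit i s =>
    intro k x y _ hS h
    cases s with
    | true =>
      by_cases hi : i ∈ P
      · simpa [Fm.Sat] using hpos k x y hS i hi (by simpa [Fm.Sat] using h)
      · simpa [Fm.Sat] using (heq k x y hS i hi).1 (by simpa [Fm.Sat] using h)
    | false =>
      have hi : i ∉ P := hα rfl
      have := heq k x y hS i hi
      simp only [Fm.Sat] at h ⊢
      simpa [this] using h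
  | bot => intro k x y _ _ h; exact h
  | top => intro k x y _ _ h; exact h
  | and a b ha hb =>
    intro k x y hk hS h
    simp only [dep] at hk
    exact ⟨ha hα.1 k x y (by omega) hS h.1, hb hα.2 k x y (by omega) hS h.2⟩
  | or a b ha hb =>
    intro k x y hk hS h
    simp only [dep] at hk
    rcases h with h | h
    · exact Or.inl (ha hα.1 k x y (by omega) hS h)
    · exact Or.inr (hb hα.2 k x y (by omega) hS h)
  | dia a ha =>
    intro k x y hk hS h
    simp only [dep] at hk
    obtain ⟨k, rfl⟩ : ∃ k', k = k' + 1 := ⟨k - 1, by omega⟩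
    obtain ⟨x', hx', h'⟩ := h
    obtain ⟨y', hy', hS'⟩ := hforth k x y hS x' hx'
    exact ⟨y', hy', ha hα k x' y' (by omega) hS' h'⟩
  | box a ha =>
    intro k x y hk hS h
    simp only [dep] at hk
    obtain ⟨k, rfl⟩ : ∃ k', k = k' + 1 := ⟨k - 1, by omega⟩
    intro y' hy'
    obtain ⟨x', hx', hS'⟩ := hback k x y hS y' hy'
    exact ha hα k x' y' (by omega) hS' (h x' hx')

/-! ### `GL.3` -/

/-- The variable `p`. -/
def p : Fm := .lit 0 true
/-- Its negation. -/
def np : Fm := .lit 0 false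
/-- The variable `r`. -/
def r : Fm := .lit 1 true
/-- Its negation. -/
def nr : Fm := .lit 1 false

/-- `□(p ∨ □p) ∧ (□p ∨ ◇◇¬p)` -/
def phi0 : Fm := .and (.box (.or p (.box p))) (.or (.box p) (.dia (.dia np)))

lemma phi0_monotone : MonotoneIn GL3 {0} phi0 := by
  refine monotone_of_sat (by decide) ?_
  intro W _ _ V x
  rw [Fm.imp, Fm.Sat, sat_neg]
  by_cases hφ : phi0.Sat (fun y z => y < z) V x
  swap
  · exact Or.inl hφ
  right
  let V' : ℕ → W → Prop := fun i y => if i = 0 then V 0 y ∨ V 2 y else V i y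
  rw [sat_sub _ V V' phi0 (by decide) (fun y => by simp [V'])
    (fun i hi _ => by funext y; simp [V', hi])]
  simp only [phi0, Fm.Sat, p, np, V'] at hφ ⊢
  simp only [if_true, Bool.false_eq_true, if_false] at hφ ⊢
  obtain ⟨h1, h2⟩ := hφ
  refine ⟨fun y hy => ?_, ?_⟩
  · rcases h1 y hy with h | h
    · exact Or.inl (Or.inl h)
    · exact Or.inr fun z hz => Or.inl (h z hz)
  · by_cases hall : ∀ y, x < y → V 0 y ∨ V 2 y
    · exact Or.inl hall
    right
    push Not at hall
    obtain ⟨z, hz, hz0, hz2⟩ := hall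
    have h3 : ∃ y, x < y ∧ ∃ z, y < z ∧ ¬ V 0 z := by
      rcases h2 with h | h
      · exact absurd (h z hz) hz0
      · exact h
    obtain ⟨y, hy, z', hyz', hz'⟩ := h3
    have h4 : z' = z := by
      rcases lt_trichotomy z z' with h | h | h
      · rcases h1 z hz with h5 | h5
        · exact absurd h5 hz0
        · exact absurd (h5 z' h) hz'
      · exact h.symm
      · rcases h1 z' (hy.trans hyz') with h5 | h5
        · exact absurd h5 hz'
        · exact absurd (h5 z h) hz0
    subst h4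
    exact ⟨y, hy, z', hyz', by simp [hz0, hz2]⟩

theorem gl3_fails : ¬ LPP GL3 := by
  intro hL
  obtain ⟨α, -, hpos, hα⟩ := hL {0} ∅ (by simp) phi0 (by decide) phi0_monotone
  set m := dep α with hm
  set n := m + 4 with hn
  let V : ℕ → Fin n → Prop := fun i x => i = 0 ∧ x.val ≠ 2
  let V' : ℕ → Fin n → Prop := fun i x => i = 0 ∧ x.val ≠ 1
  let S : ℕ → Fin n → Fin n → Prop := fun k x y =>
    (x.val ≠ 2 → y.val ≠ 1) ∧ ((x.val = 0 ∧ y.val = 0 ∧ k ≤ m) ∨ (1 ≤ x.val ∧ 1 ≤ y.val ∧
      (x.val = y.val ∨ (x.val + k + 1 ≤ n ∧ y.val + k + 1 ≤ n))))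
  have key := sim_sat (R := fun y z : Fin n => y < z) (V := V) (V' := V') (P := {0}) S ?_ ?_ ?_ ?_
    α hpos m ⟨0, by omega⟩ ⟨0, by omega⟩ le_rfl ?_
  · have e1 := (sat_iff _ _ _ _ _).1 (hα (Fin n) V ⟨0, by omega⟩)
    have e2 := (sat_iff _ _ _ _ _).1 (hα (Fin n) V' ⟨0, by omega⟩)
    have e3 : phi0.Sat (fun y z : Fin n => y < z) V ⟨0, by omega⟩ := by
      simp only [phi0, Fm.Sat, p, np, V, if_true, Bool.false_eq_true, if_false, true_and]
      refine ⟨fun y _ => ?_, Or.inr ⟨⟨1, by omega⟩, by simp [Fin.lt_def],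
        ⟨2, by omega⟩, by simp [Fin.lt_def], by simp⟩⟩
      by_cases hy : y.val = 2
      · right
        intro z hz
        have := Fin.lt_def.1 hz
        omega
      · exact Or.inl hy
    have e4 := e2.2 (key (e1.1 e3))
    simp only [phi0, Fm.Sat, p, np, V', if_true, Bool.false_eq_true, if_false, true_and] at e4
    rcases e4.2 with h | ⟨y, hy, z, hz, hz'⟩
    · exact h ⟨1, by omega⟩ (by simp [Fin.lt_def]) rfl
    · have h1 := Fin.lt_def.1 hy
      have h2 := Fin.lt_def.1 hz
      simp only at h1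
      exact hz' (by omega)
  · intro k x y hS i hi h
    have hi0 : i = 0 := by simpa using hi
    exact ⟨hi0, hS.1 h.2⟩
  · intro k x y _ i hi
    have hi0 : i ≠ 0 := by simpa using hi
    simp [V, V', hi0]
  · rintro k x y ⟨h1, h2⟩ x' hx'
    have hx := Fin.lt_def.1 hx'
    rcases h2 with ⟨hx0, hy0, hk⟩ | ⟨hx1, hy1, h3⟩
    · by_cases hx'1 : x'.val = 1
      · refine ⟨⟨2, by omega⟩, by simp [Fin.lt_def]; omega, by simp, Or.inr ⟨by omega, by simp,
          Or.inr ⟨by omega, by simp only; omega⟩⟩⟩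
      · exact ⟨x', by rw [Fin.lt_def]; omega, fun _ => hx'1, Or.inr ⟨by omega, by omega,
          Or.inl rfl⟩⟩
    · rcases h3 with h3 | ⟨h3, h4⟩
      · exact ⟨x', by rw [Fin.lt_def]; omega, fun _ => by omega, Or.inr ⟨by omega, by omega,
          Or.inl rfl⟩⟩
      · by_cases h5 : x'.val + k + 1 ≤ n
        · exact ⟨⟨y.val + 1, by omega⟩, by simp [Fin.lt_def], fun _ => by simp only; omega,
            Or.inr ⟨by omega, by simp, Or.inr ⟨h5, by simp only; omega⟩⟩⟩
        · exact ⟨x', by rw [Fin.lt_def]; omega, fun _ => by omega, Or.inr ⟨by omega, by omega,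
            Or.inl rfl⟩⟩
  · rintro k x y ⟨h1, h2⟩ y' hy'
    have hy := Fin.lt_def.1 hy'
    rcases h2 with ⟨hx0, hy0, hk⟩ | ⟨hx1, hy1, h3⟩
    · by_cases hy'1 : y'.val = 1
      · refine ⟨⟨2, by omega⟩, by simp [Fin.lt_def]; omega, by simp, Or.inr ⟨by simp, by omega,
          Or.inr ⟨by simp only; omega, by omega⟩⟩⟩
      · exact ⟨y', by rw [Fin.lt_def]; omega, fun _ => hy'1, Or.inr ⟨by omega, by omega,
          Or.inl rfl⟩⟩
    · rcases h3 with h3 | ⟨h3, h4⟩
      · exact ⟨y', by rw [Fin.lt_def]; omega, fun _ => by omega, Or.inr ⟨by omega, by omega,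
          Or.inl rfl⟩⟩
      · by_cases h5 : y'.val + k + 1 ≤ n
        · exact ⟨⟨x.val + 1, by omega⟩, by simp [Fin.lt_def], fun _ => by omega,
            Or.inr ⟨by simp, by omega, Or.inr ⟨by simp only; omega, h5⟩⟩⟩
        · exact ⟨y', by rw [Fin.lt_def]; omega, fun _ => by omega, Or.inr ⟨by omega, by omega,
            Or.inl rfl⟩⟩
  · exact ⟨by simp, Or.inl ⟨rfl, rfl, le_rfl⟩⟩

/-! ### `Grz.3` -/

/-- `□(p ∨ r ∨ □(¬r ∨ □p)) ∧ (□(r ∨ □p) ∨ ◇(¬r ∧ ◇(r ∧ ◇¬p)))` -/
def phi1 : Fm :=
  .and (.box (.or p (.or r (.box (.or nr (.box p))))))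
    (.or (.box (.or r (.box p))) (.dia (.and nr (.dia (.and r (.dia np))))))

lemma phi1_monotone : MonotoneIn Grz3 {0} phi1 := by
  refine monotone_of_sat (by decide) ?_
  intro W _ _ V x
  rw [Fm.imp, Fm.Sat, sat_neg]
  by_cases hφ : phi1.Sat (fun y z => y ≤ z) V x
  swap
  · exact Or.inl hφ
  right
  let V' : ℕ → W → Prop := fun i y => if i = 0 then V 0 y ∨ V 2 y else V i y
  rw [sat_sub _ V V' phi1 (by decide) (fun y => by simp [V'])
    (fun i hi _ => by funext y; simp [V', hi])]
  simp only [phi1, Fm.Sat, p, np, r, nr, V'] at hφ ⊢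
  simp only [if_true, Bool.false_eq_true, if_false, one_ne_zero] at hφ ⊢
  obtain ⟨h1, h2⟩ := hφ
  refine ⟨fun y hy => ?_, ?_⟩
  · rcases h1 y hy with h | h | h
    · exact Or.inl (Or.inl h)
    · exact Or.inr (Or.inl h)
    · refine Or.inr (Or.inr fun z hz => ?_)
      rcases h z hz with h' | h'
      · exact Or.inl h'
      · exact Or.inr fun u hu => Or.inl (h' u hu)
  · by_cases hall : ∀ y, x ≤ y → V 1 y ∨ ∀ z, y ≤ z → V 0 z ∨ V 2 z
    · exact Or.inl hall
    right
    push Not at hall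
    obtain ⟨y', hy', hry', z', hz', hz0, hz2⟩ := hall
    have h3 : ∃ y, x ≤ y ∧ ¬ V 1 y ∧ ∃ v, y ≤ v ∧ V 1 v ∧ ∃ z, v ≤ z ∧ ¬ V 0 z := by
      rcases h2 with h | h
      · rcases h y' hy' with h' | h'
        · exact absurd h' hry'
        · exact absurd (h' z' hz') hz0
      · exact h
    obtain ⟨y, hy, hry, v, hv, hrv, z, hz, hz00⟩ := h3
    rcases le_or_gt v z' with h4 | h4
    · exact ⟨y, hy, hry, v, hv, hrv, z', h4, by simp [hz0, hz2]⟩
    · by_cases h5 : V 1 z'
      · exact ⟨y', hy', hry', z', hz', h5, z', le_rfl, by simp [hz0, hz2]⟩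
      · exfalso
        rcases h1 z' (hy'.trans hz') with h | h | h
        · exact hz0 h
        · exact h5 h
        · rcases h v h4.le with h' | h'
          · exact h' hrv
          · exact hz00 (h' z hz)

theorem grz3_fails : ¬ LPP Grz3 := by
  intro hL
  obtain ⟨α, -, hpos, hα⟩ := hL {0} {1} (by simp) phi1 (by decide) phi1_monotone
  set m := dep α with hm
  set n := 2 * m + 8 with hn
  let V : ℕ → Fin n → Prop := fun i x => (i = 0 ∧ x.val ≠ 3) ∨ (i = 1 ∧ x.val % 2 = 0)
  let V' : ℕ → Fin n → Prop := fun i x => (i = 0 ∧ x.val ≠ 1) ∨ (i = 1 ∧ x.val % 2 = 0)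
  let S : ℕ → Fin n → Fin n → Prop := fun k x y =>
    (x.val ≠ 3 → y.val ≠ 1) ∧ x.val % 2 = y.val % 2 ∧
      ((x.val = 0 ∧ y.val = 0 ∧ k ≤ m) ∨ (1 ≤ x.val ∧ 1 ≤ y.val ∧
      (x.val = y.val ∨ (x.val + 2 * k + 3 ≤ n ∧ y.val + 2 * k + 3 ≤ n))))
  have key := sim_sat (R := fun y z : Fin n => y ≤ z) (V := V) (V' := V') (P := {0}) S ?_ ?_ ?_ ?_
    α hpos m ⟨0, by omega⟩ ⟨0, by omega⟩ le_rfl ?_
  · have e1 := (sat_iff _ _ _ _ _).1 (hα (Fin n) V ⟨0, by omega⟩)
    have e2 := (sat_iff _ _ _ _ _).1 (hα (Fin n) V' ⟨0, by omega⟩)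
    have e3 : phi1.Sat (fun y z : Fin n => y ≤ z) V ⟨0, by omega⟩ := by
      simp only [phi1, Fm.Sat, p, np, r, nr, V, if_true, Bool.false_eq_true, if_false, true_and,
        one_ne_zero, zero_ne_one, false_and, or_false, false_or]
      refine ⟨fun y _ => ?_, Or.inr ⟨⟨1, by omega⟩, by simp [Fin.le_def], by simp,
        ⟨2, by omega⟩, by simp [Fin.le_def], by simp, ⟨3, by omega⟩, by simp [Fin.le_def],
        by simp⟩⟩
      by_cases hy : y.val = 3
      · right; right
        intro v hv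
        by_cases hv2 : v.val % 2 = 0
        · right
          intro z hz
          have h1 := Fin.le_def.1 hv
          have h2 := Fin.le_def.1 hz
          omega
        · exact Or.inl hv2
      · exact Or.inl hy
    have e4 := e2.2 (key (e1.1 e3))
    simp only [phi1, Fm.Sat, p, np, r, nr, V', if_true, Bool.false_eq_true, if_false, true_and,
      one_ne_zero, zero_ne_one, false_and, or_false, false_or] at e4
    rcases e4.2 with h | ⟨y, hy, hy2, v, hv, hv2, z, hz, hz'⟩
    · rcases h ⟨1, by omega⟩ (by simp [Fin.le_def]) with h' | h'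
      · simp at h'
      · exact h' ⟨1, by omega⟩ le_rfl rfl
    · have h1 := Fin.le_def.1 hv
      have h2 := Fin.le_def.1 hz
      exact hz' (by omega)
  · intro k x y hS i hi h
    have hi0 : i = 0 := by simpa using hi
    subst hi0
    simp only [V, V', true_and, zero_ne_one, false_and, or_false] at h ⊢
    exact hS.1 h
  · intro k x y hS i hi
    have hi0 : i ≠ 0 := by simpa using hi
    simp [V, V', hi0, hS.2.1]
  · rintro k x y ⟨h1, hpar, h2⟩ x' hx'
    have hx := Fin.le_def.1 hx'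
    have hlt := x'.isLt
    rcases h2 with ⟨hx0, hy0, hk⟩ | ⟨hx1, hy1, h3⟩
    · by_cases hx'0 : x'.val = 0
      · exact ⟨y, le_rfl, by omega, by omega, Or.inl ⟨hx'0, hy0, by omega⟩⟩
      by_cases hx'1 : x'.val = 1
      · exact ⟨⟨3, by omega⟩, by rw [Fin.le_def]; simp only; omega, by simp, by simp only; omega,
          Or.inr ⟨by omega, by simp, Or.inr ⟨by omega, by simp only; omega⟩⟩⟩
      · exact ⟨x', by rw [Fin.le_def]; omega, fun _ => hx'1, rfl, Or.inr ⟨by omega, by omega,
          Or.inl rfl⟩⟩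
    · rcases h3 with h3 | ⟨h3, h4⟩
      · by_cases hx'1 : x'.val = 1
        · exact absurd h1 (by omega)
        · exact ⟨x', by rw [Fin.le_def]; omega, fun _ => hx'1, rfl, Or.inr ⟨by omega, by omega,
            Or.inl rfl⟩⟩
      · by_cases h5 : x'.val + 2 * k + 3 ≤ n
        · by_cases h6 : x'.val % 2 = y.val % 2
          · by_cases h7 : y.val = 1
            · exact ⟨⟨3, by omega⟩, by rw [Fin.le_def]; simp only; omega, by simp,
                by simp only; omega, Or.inr ⟨by omega, by simp, Or.inr ⟨h5, by simp only; omega⟩⟩⟩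
            · exact ⟨y, le_rfl, fun _ => h7, h6, Or.inr ⟨by omega, hy1, Or.inr ⟨h5, by omega⟩⟩⟩
          · exact ⟨⟨y.val + 1, by omega⟩, by rw [Fin.le_def]; simp only; omega,
              fun _ => by simp only; omega, by simp only; omega,
              Or.inr ⟨by omega, by simp, Or.inr ⟨h5, by simp only; omega⟩⟩⟩
        · exact ⟨x', by rw [Fin.le_def]; omega, fun _ => by omega, rfl, Or.inr ⟨by omega, by omega,
            Or.inl rfl⟩⟩
  · rintro k x y ⟨h1, hpar, h2⟩ y' hy'
    have hy := Fin.le_def.1 hy'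
    have hlt := y'.isLt
    rcases h2 with ⟨hx0, hy0, hk⟩ | ⟨hx1, hy1, h3⟩
    · by_cases hy'0 : y'.val = 0
      · exact ⟨x, le_rfl, by omega, by omega, Or.inl ⟨hx0, hy'0, by omega⟩⟩
      by_cases hy'1 : y'.val = 1
      · exact ⟨⟨3, by omega⟩, by rw [Fin.le_def]; simp only; omega, by simp, by simp only; omega,
          Or.inr ⟨by simp, by omega, Or.inr ⟨by simp only; omega, by omega⟩⟩⟩
      · exact ⟨y', by rw [Fin.le_def]; omega, fun _ => hy'1, rfl, Or.inr ⟨by omega, by omega,
          Or.inl rfl⟩⟩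
    · rcases h3 with h3 | ⟨h3, h4⟩
      · by_cases hy'1 : y'.val = 1
        · exact absurd h1 (by omega)
        · exact ⟨y', by rw [Fin.le_def]; omega, fun _ => hy'1, rfl, Or.inr ⟨by omega, by omega,
            Or.inl rfl⟩⟩
      · by_cases h5 : y'.val + 2 * k + 3 ≤ n
        · by_cases h6 : x.val % 2 = y'.val % 2
          · exact ⟨x, le_rfl, fun h => by
              by_cases h7 : y'.val = 1
              · exact absurd (h1 h) (by omega)
              · exact h7, h6, Or.inr ⟨hx1, by omega, Or.inr ⟨by omega, h5⟩⟩⟩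
          · exact ⟨⟨x.val + 1, by omega⟩, by rw [Fin.le_def]; simp only; omega,
              fun _ => by omega, by simp only; omega,
              Or.inr ⟨by simp, by omega, Or.inr ⟨by simp only; omega, h5⟩⟩⟩
        · exact ⟨y', by rw [Fin.le_def]; omega, fun _ => by omega, rfl, Or.inr ⟨by omega, by omega,
            Or.inl rfl⟩⟩
  · exact ⟨by simp, rfl, Or.inl ⟨rfl, rfl, le_rfl⟩⟩

end H313LP

namespace Pool.Agent.Results.MP_4f615a_lc.PositivityFails

open H313LP in
/-- Neither `GL.3` nor `Grz.3` has the Lyndon positivity property. -/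
theorem result : ¬ LPP GL3 ∧ ¬ LPP Grz3 := ⟨gl3_fails, grz3_fails⟩

end Pool.Agent.Results.MP_4f615a_lc.PositivityFails
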